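import Pool.Agent.R423.AL.Bridge

/-!
# MP_5ae62c_nt: no local lifting is compatible with all global functorial liftings

`Gen.LocalLiftingExists R K L q` (in `Pool.Agent.R423.AL.Stmt`) is the statement of the problem for
the local field `L`, `G = GL(2)`, `ρ` the standard representation of `GL(2, ℂ)`, restricted to the
global field `K`, its place at infinity with completion `L`, and the group `GL(2)` over `K`.  It is
false for `R = F₂[t]`, `K = F₂(t)`, `L = F₂((1/t))`, `q = 2`.
-/

open Pool.Agent.R423.AL in
/-- There is no map `l` from the irreducible smooth representations of `GL₂(F₂((1/t)))` to
themselves such that for every automorphic representation `π` of `GL₂(𝔸)`, `K = F₂(t)`, with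
(isobaric) global lifting `Θ`, the component of `Θ` at infinity is `l` of the component of `π` at
infinity.  Explicitly: there are an automorphic representation `π` with global lifting `Θ` and a
cuspidal automorphic representation `π'` (with global lifting `π'`) which have the same component
`σ` at infinity, but the components of their global liftings at infinity are different. -/
theorem Pool.Agent.Results.MP_5ae62c_nt.NoCompatibleLocalLifting.result :
    ¬ Gen.LocalLiftingExists R K Kinf 2 ∧ Gen.ExistsConflict R K Kinf 2 :=
  ⟨Bridge.main, Bridge.existsConflict⟩
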